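import Pool.Agent.PSZ.Group

set_option autoImplicit false

/-!
# Small circuits for CLIQUE, even to be right on 51 per cent, have small symmetry groups

Circuits `C` with `S` gates, each an arbitrary symmetric function of any number of gates and input
bits, for CLIQUE (a graph with `N` vertices and the number `k` in unary); `U` is a set of gates of
`C` with `F` wires into it. Let `t ≥ 1` and let `G` be a group of permutations of the vertices,
which (a) maps onto the alternating group `A_m`, `m ≥ 5 log_5 N + 5 t`, or (b) has more than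
`N! / q!` elements, `4 q + 5 t ≤ N + 8`, or (c) induces on some `s` disjoint five-element sets of
vertices at least `12 ^ s 5 ^ t` of the `60 ^ s` families of even permutations. Then there are an
input `X₀` with a clique and inputs `X 0, ..., X (K - 1)` without one, such that every circuit `C`,
which has all elements of `G` as symmetries up to `U` and is right with probability above 51 per
cent (on `X₀` with probability `1 / 2`, on a random `X i` with probability `1 / 2`), satisfies
`5 ^ t ≤ (S + 1) ^ (52000 (F + 1))`.
-/

namespace Pool.Agent.Results.MP_994c82_lc.AlmostAsymmetric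

open Pool.Agent.PSY Pool.Agent.PSX Pool.Agent.PSZ

theorem result (N t : ℕ) (ht : 1 ≤ t) (G : Subgroup (Equiv.Perm (Fin N)))
    (hG : (∃ (m : ℕ) (f : G →* alternatingGroup (Fin m)), 5 * Nat.log 5 N + 5 * t ≤ m ∧
        Function.Surjective f) ∨
      (∃ q : ℕ, 4 * q + 5 * t ≤ N + 8 ∧ N.factorial < Nat.card G * q.factorial) ∨
      ∃ (s : ℕ) (b : Fin s × Fin 5 ↪ Fin N), 12 ^ s * 5 ^ t ≤
        Nat.card {a : Fin s → alternatingGroup (Fin 5) //
          ∃ σ ∈ G, ∀ i p, σ (b (i, p)) = b (i, (a i : Equiv.Perm (Fin 5)) p)}) :
    ∃ K : ℕ, 0 < K ∧ ∃ (X₀ : InK N → Bool) (X : Fin K → InK N → Bool), cliqueK X₀ = true ∧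
      (∀ i, cliqueK (X i) = false) ∧ ∀ (C : SymCircuit (InK N)) (U : Finset C.Gate),
        (∀ σ ∈ G, SymK C U σ) → (51 : ℝ) / 100 < successK C X₀ X →
        5 ^ t ≤ (C.size + 1) ^ (52000 * (C.wires U + 1)) :=
  hard_group ht G hG

end Pool.Agent.Results.MP_994c82_lc.AlmostAsymmetric
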