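import Pool.Agent.GB24.HiddenNdet
import Pool.Agent.RC.HiddenRealFew
import Pool.Agent.RC.HiddenRealCount
import Pool.Agent.RC.HiddenAvgPoly

/-!
# Circuits must see many missing edges of every large set

Definitions. A partly hidden input is a function `p : ι → Option Bool`; the bit `v` is hidden if
`p v = none`, and `fun v => some (x v)` is the input `x` with nothing hidden. A device is a Boolean
function of partly hidden inputs.

`hide U Z x` (`Pool/Agent/NWE/Kleene.lean`): the input `x` whose zeros in `U` are hidden, except those
in `Z`. `AccSees U w D x` (`Pool/Agent/GB24/HiddenUDefs.lean`): the devices `D y`, `y` a guess, accept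
`x` seeing at most `w` zeros in `U`, that is some `D y` accepts `hide U Z x` for some set `Z` of at
most `w` zeros of `x` in `U`.

`RightSees f U w D x` (`Pool/Agent/AVZ/Main.lean`): the devices `D y` are right on `x` seeing at most
`w` zeros in `U`: `f x` holds and they accept `x` seeing at most `w` zeros in `U`, or `f x` does not
hold and no `D y` accepts `x`.

`HardFew f U K n Q` (`Pool/Agent/GB24/HiddenFew.lean`): there are `ρ` and a nonempty set `M` of
inputs with `f x`, all equal to `ρ` outside `U`, such that all devices `D y` (`y ∈ Y`, any number of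
guesses) of the class `K`, at most `A` of which accept an input equal to `ρ` outside `U` and only if
`f x` holds, accept at most `A n ^ w |M| / Q` elements of `M` seeing at most `w` zeros in `U`.

Real circuits (`Pool/Agent/RC/Ival.lean`). An `ICircuit` is a list of gates `IGate`; a gate is a real
function of the values of two wires which is increasing or decreasing in each of them (`φ (± x, ± y)`
with an increasing function `φ : ℝ × ℝ → ℝ`); `size` is the number of gates, `C.val x o` the value of
the wire `o` at the input `x` (a variable has the value `0` or `1`), `C.range p o` the interval (its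
two ends) computed by interval arithmetic for the wire `o` at the partly hidden input `p` (a hidden
variable has the interval `[0, 1]`). The circuit accepts if the value is positive, and accepts `p` if
the lower end of the interval is positive.

`kleene C p o` (`Pool/Agent/NWE/Kleene.lean`): the value of the wire `o` of the circuit `C`
(`Circuit`, `Wire` in `Pool/Agent/NegLim/Defs.lean`: AND, OR, NOT gates anywhere, `size` is the number
of all gates) at the partly hidden input `p` in Kleene's three-valued logic.

`HasClique K x` (`Pool/Agent/NegLim/Defs.lean`): the graph `x` has a clique with `K` vertices (the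
variables are the pairs `i < j`, the type `Edge N`). `ends U` (`Pool/Agent/NTN/ForestRestr.lean`): the
vertices on the edges in `U`.
-/

namespace Pool.Agent.Results.MP_994c82_lc.HiddenZeros

open Pool.Agent.NegLim Pool.Agent.NWE
  Pool.Agent.NTN Pool.Agent.GB24 Pool.Agent.GB24.Loc Pool.Agent.RC Pool.Agent.AVZ
open scoped BigOperators

open Classical in
/-- First part: for large `N` and every set `U` of edges with `e ≥ (log N) ^ 5` endpoints there is a
probability distribution `μ` on the inputs equal to some `ρ` outside `U` such that real circuits of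
size `N ^ c` (any number of guesses `y`, at most `N ^ c` of them accepting an input) are right on the
clique function (`N / 2` of `N` vertices), seeing at most `⌊e / (log N) ^ 5⌋` zeros (missing edges) in
`U`, with probability less than `51 / 100`.

Second part: a nondeterministic real circuit `C` (with the variables `V ⊕ Γ`; the guess is
`y : Γ → Bool`) is for every fixed guess a real circuit of the same size, with the same intervals;
every circuit with AND, OR, NOT gates is, with Kleene's logic, a real circuit of the same size with
interval arithmetic; every function of `n` variables has a real circuit with `n + 1` gates.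

Third part, (1): the clique function, `U` any set of edges with at least `2 k` endpoints: the average
case bound for real circuits with at most `2 ^ s` gates and at most `2 ^ s` accepting guesses.

Fourth part, (2): the clique function, `U` any set of edges with at least `2 k` endpoints: real
circuits with at most `2 ^ s` gates which accept only yes-inputs.

Fifth part, (3): sets `U` with few endpoints need not be seen. Let `U` be a set of edges with `e`
endpoints. If the nondeterministic circuit `C` with AND, OR, NOT gates computes `HasClique K` (`x` has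
a clique if and only if `C` accepts `x` with some guess `y`), at most `A` guesses being accepted at an
input, then the same holds for a nondeterministic circuit `D` with `|C| + 2 |U|` gates and `e` more
guess bits, at most `2 ^ e A` guesses being accepted at an input, and `D` accepts every graph `x` with
`K` pairwise adjacent vertices with some guess when all missing edges of `x` in `U` are hidden. For a
circuit `C` (no guesses) for this function there is one such circuit `D` with at most
`2 ^ e (|C| + 1)` gates. -/
theorem result :
    (∀ c : ℕ, ∃ N₀ : ℕ, ∀ N ≥ N₀, ∀ U : Finset (Edge N), Nat.log 2 N ^ 5 ≤ (ends U).card →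
      ∃ (ρ : Edge N → Bool) (μ : (Edge N → Bool) → ℝ), (∀ x, 0 ≤ μ x) ∧ ∑ x, μ x = 1 ∧
        (∀ x, μ x ≠ 0 → ∀ v, v ∉ U → x v = ρ v) ∧
        ∀ (Y : Type) [Fintype Y] (C : Y → ICircuit (Edge N)) (o : Y → Wire (Edge N)),
          (∀ y, (C y).size ≤ N ^ c) →
          (∀ x : Edge N → Bool, (∀ v, v ∉ U → x v = ρ v) →
            {y | 0 < (C y).val x (o y)}.ncard ≤ N ^ c) →
          ∑ x with RightSees (HasClique (N / 2)) U ((ends U).card / Nat.log 2 N ^ 5)
            (fun y p => decide (0 < ((C y).range p (o y)).1)) x, μ x < 51 / 100) ∧
    (∀ V Γ : Type,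
      (∀ (C : ICircuit (V ⊕ Γ)) (o : Wire (V ⊕ Γ)) (y : Γ → Bool),
        ∃ (D : ICircuit V) (b : Wire V), D.size = C.size ∧
          ∀ p : V → Option Bool, D.range p b = C.range (Sum.elim p fun g => some (y g)) o) ∧
      (∀ (C : Circuit V) (o : Wire V), ∃ D : ICircuit V, D.size = C.size ∧
        ∀ p, decide (0 < (D.range p o).1) = (kleene C p o == some true)) ∧
      ∀ [Fintype V] [DecidableEq V] (f : (V → Bool) → Bool), ∃ (C : ICircuit V) (o : Wire V),
        C.size = Fintype.card V + 1 ∧ ∀ x, C.val x o = if f x then 1 else 0) ∧
    (∀ (s N k : ℕ) (U : Finset (Edge N)), 1 ≤ s → 1 ≤ k → 2 * k ≤ (ends U).card →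
      ∃ (ρ : Edge N → Bool) (μ : (Edge N → Bool) → ℝ), (∀ x, 0 ≤ μ x) ∧ ∑ x, μ x = 1 ∧
        (∀ x, μ x ≠ 0 → ∀ v, v ∉ U → x v = ρ v) ∧
        ∀ (Y : Type) [Fintype Y] (w : ℕ) (C : Y → ICircuit (Edge N)) (o : Y → Wire (Edge N)),
          (∀ y, (C y).size ≤ 2 ^ s) →
          (∀ x : Edge N → Bool, (∀ v, v ∉ U → x v = ρ v) →
            {y | 0 < (C y).val x (o y)}.ncard ≤ 2 ^ s) →
          ∑ x with RightSees (HasClique (N / 2)) U w
            (fun y p => decide (0 < ((C y).range p (o y)).1)) x, μ x
            ≤ 1 / 2 + (1 / 2) ^ s
              + (w + 1) * (2 ^ 122 * s ^ 4 * (Nat.log 2 s + 1) ^ 6 : ℕ) / k) ∧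
    (∀ (s N k : ℕ) (U : Finset (Edge N)), 1 ≤ s → 2 * k ≤ (ends U).card →
      HardFew (HasClique (N / 2)) U
        (fun D => ∃ (C : ICircuit (Edge N)) (o : Wire (Edge N)),
          C.size ≤ 2 ^ s ∧ ∀ p, D p = decide (0 < (C.range p o).1))
        ((U.card + 1) * (k + 1)) ((2 ^ s) ^ (k / (2 ^ 122 * s ^ 4 * (Nat.log 2 s + 1) ^ 6)))) ∧
    (∀ (N K : ℕ) (U : Finset (Edge N)) (Γ : Type) [Fintype Γ] (A : ℕ)
      (C : Circuit (Edge N ⊕ Γ)) (o : Wire (Edge N ⊕ Γ)),
      (∀ x, HasClique K x ↔ ∃ y : Γ → Bool, C.val (Sum.elim x y) o = true) →
      (∀ x, {y : Γ → Bool | C.val (Sum.elim x y) o = true}.ncard ≤ A) →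
        ∃ (D : Circuit (Edge N ⊕ (Γ ⊕ {v // v ∈ ends U})))
          (b : Wire (Edge N ⊕ (Γ ⊕ {v // v ∈ ends U}))), D.size = C.size + 2 * U.card ∧
            (∀ x, HasClique K x ↔
              ∃ z : Γ ⊕ {v // v ∈ ends U} → Bool, D.val (Sum.elim x z) b = true) ∧
            (∀ x, {z : Γ ⊕ {v // v ∈ ends U} → Bool | D.val (Sum.elim x z) b = true}.ncard
              ≤ 2 ^ (ends U).card * A) ∧
            ∀ x, HasClique K x → ∃ z : Γ ⊕ {v // v ∈ ends U} → Bool,
              kleene D (Sum.elim (hide U ∅ x) fun g => some (z g)) b = some true) ∧
    ∀ (N K : ℕ) (U : Finset (Edge N)) (C : Circuit (Edge N)) (o : Wire (Edge N)),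
      (∀ x, C.val x o = true ↔ HasClique K x) →
        ∃ (D : Circuit (Edge N)) (b : Wire (Edge N)),
          D.size ≤ 2 ^ (ends U).card * (C.size + 1) ∧
            (∀ x, D.val x b = true ↔ HasClique K x) ∧
              ∀ x, HasClique K x → kleene D (hide U ∅ x) b = some true :=
  ⟨rclique_avg_poly, fun _ _ => ⟨exists_instI, fun C o => ⟨C.map ivalGate, List.length_map _,
      fun p => by rw [kleene_range, ivK_pos]⟩, exists_ival⟩,
    fun _ _ _ U hs hk hU => rclique_avg_circ hs hk U hU,
    fun _ _ _ U hs hU => rclique_few hs U hU,
    fun _ K U _ _ _ C o hC hA => clique_blind_ndet K U C o hC hA,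
    fun _ K U C o hC => clique_blind_one K U C o hC⟩

end Pool.Agent.Results.MP_994c82_lc.HiddenZeros
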