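import Pool.Agent.UY.GMain
import Pool.Agent.UZ.GMain
import Pool.Agent.UW.GTime

open Pool.Agent.UW

/-- The problem GEN in the incremental model: circuits of small depth and nondeterministic programs
need exponential size, circuits of large depth have cubic size. -/
theorem Pool.Agent.Results.MP_994c82_lc.IncrementalGeneration.result :
    (∀ l t R A r s n : ℕ, 0 < l → 0 < t → l ≤ 2 ^ t → (A + 1) * (r + 1) ≤ s ^ 2 →
      ((R < 2 ^ t ∧ 2 ^ 29 * l * (t ^ 2 + R) * (t + s) ≤ n + 2) ∨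
        (∃ k, 0 < k ∧ k ^ 2 ≤ 2 ^ t ∧ R ≤ t * k ^ 2 ∧ s ≤ 2 ^ t ∧
          2 ^ 29 * l * t ^ 11 * (k * (k + s)) ≤ n + 2)) →
      (∃ (Ω : Type) (_ : Fintype Ω) (_ : Nonempty Ω)
        (G : Ω → Fin (n + 2) × Fin (n + 2) → Fin (n + 2)),
        ∀ (S : Type) [Fintype S] (B : Prog (Fin (n + 2) × Fin (n + 2)) (Fin (n + 2)) S),
          Fintype.card S ≤ 2 ^ t → FewUseless B A R →
          (({ω | RightGen B r (2 ^ l) (G ω)}.ncard : ℕ) : ℝ) ≤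
            (1 / 2 + 1 / 128 + 1 / 2 ^ (t + 1)) * Nat.card Ω) ∧
      (∃ (Ω : Type) (_ : Fintype Ω) (_ : Nonempty Ω)
        (G : Ω → Fin (n + 2) × Fin (n + 2) → Fin (n + 2)), (∀ ω, Gen (G ω) 0 1) ∧
        ∀ (S : Type) [Fintype S] (B : Prog (Fin (n + 2) × Fin (n + 2)) (Fin (n + 2)) S),
          Fintype.card S ≤ 2 ^ t → FewUseless B A R →
          (∀ g, ¬ Gen g 0 1 → ∀ T, ¬ AccTree B g T) →
          (({ω | RightGen B r (2 ^ l) (G ω)}.ncard : ℕ) : ℝ) ≤ 1 / 2 ^ t * Nat.card Ω)) ∧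
    (∀ n : ℕ, ∃ (S : Type) (_ : Fintype S) (B : Prog (Fin (n + 2) × Fin (n + 2)) (Fin (n + 2)) S),
      Fintype.card S ≤ (n + 2) ^ 3 + 1 ∧ HasDepth B (2 * n + 3) ∧ FewUseless B 0 0 ∧
      ∀ g, RightGen B 0 (2 ^ (2 * n + 3)) g) ∧
    (∀ (n m : ℕ) (S : Type) [Fintype S] (B : Prog (Fin (n + 2) × Fin (n + 2)) (Fin (n + 2)) S),
      ((∃ d, HasDepth B d ∧ 2 ^ d ≤ m) ∨ ((∀ q s s', ¬ B.fork q s s') ∧
        (Fintype.card S ≤ m ∨ ∃ d, HasDepth B d ∧ d < m))) → ∀ r g,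
      (RightGen B r m g ↔
        ((Gen g 0 1 ∧ ∃ T, AccTree B g T ∧ (treads T ∩ useless g).encard ≤ r) ∨
          (¬ Gen g 0 1 ∧ ∀ T, ¬ AccTree B g T)))) := by
  refine ⟨?_, gen_up_depth, fun _ _ _ _ B h r g => rightGen_auto B h r g⟩
  intro l t R A r s n hl ht hlt hs h
  rcases h with ⟨hR, hn⟩ | ⟨k, hk, hkt, hR, hst, hn⟩
  · exact Pool.Agent.UY.gmain l t R A r s n ht hl hlt hR hs hn
  · exact Pool.Agent.UZ.gmain l t R A r s k n ht hl hlt hk hkt hR hst hs hn
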