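import Pool.Agent.RC.CliqueAvg
import Pool.Agent.RC.WideReal
import Pool.Agent.RC.Free
import Pool.Agent.RC.Embed
import Pool.Agent.NTN.WideNots

/-!
# CLIQUE needs many NOT gates, even with all monotone real functions as gates

Definitions. A circuit `C : Circuit V` is a list of gates AND, OR, NOT which read variables,
constants and outputs of earlier gates (`Wire V`); `C.size` is the number of gates, `C.negs` the
number of NOT gates, `C.val x o` the value of the wire `o` at the input `x`, and `C.notVals x` the
list of the values of the NOT gates at `x` (`Pool/Agent/NegLim/Defs.lean`, `Flips.lean`).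

A real circuit `C : RCircuit V` is a list of gates which read variables, constants (the numbers
`0, 1`) and outputs of earlier gates; a gate (`RGate V`) is any monotone function of two real
numbers, or a NOT gate: `1` minus a monotone function with values `0, 1` of a real number
(`Pool/Agent/RC/Defs.lean`). Part one: circuits are real circuits.

`ChangesOn U w b`: along every increasing sequence of inputs which agree outside `U` the value of
`w` changes fewer than `b` times (`Pool/Agent/NTR/FullDefs.lean`).

`HasClique (N / 2) u`: the graph `u` on `N` vertices, given by its possible edges `Edge N`, has a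
clique with `⌊N / 2⌋` vertices (`Pool/Agent/NegLim/Defs.lean`).
-/

namespace Pool.Agent.Results.MP_994c82_lc.TransferNatural

open Pool.Agent.NegLim Pool.Agent.NTR Pool.Agent.NTN Pool.Agent.RC Finset
open scoped BigOperators

open Classical in
/-- Part one: every circuit is a real circuit of the same size.

Part two: the list of the values of the NOT gates of a real circuit changes fewer than `b` times on
`U` if all NOT gates except those in `J` do not depend on the variables in `U` and `2 ^ |J| ≤ b`.

Part three: the clique function, `U` ANY set of `k > 0` inputs. There is a probability distribution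
`μ` on the inputs, which charges only inputs equal outside `U`, such that every real circuit with
fewer than `2 ^ s` gates whose NOT gates change their values fewer than `b` times on `U` (output:
any wire with any threshold `ψ`) is right with probability at most
`1 / 2 + 2 ^ (-s) + b c / k`, `c = (2 ^ 131 s ^ 4 (log₂ s + 1) ^ 7) ^ 2 (log₂ N + 1)`.

Part four: let `d ≥ 1`, and let `U` be a set of `k` of `n` variables. EVERY function which is
monotone in the variables in `U`, if `d = 1` EVERY function, is computed by a real circuit with at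
most `(3 n + 4) (k + 1) ^ d` gates, `6 n + 5` gates if `d = 1`, whose NOT gates change their values
at most `k / d` times on `U`; at most `log₂ (k / d) + 1` of them depend on the variables in `U`, and
there are at most `n - k` others.

Part five: a circuit with `S` gates for such a function yields a circuit for it with at most
`2 (k + 1) ^ d S + 20 (k + 1) ^ (d + 2) + n` gates and the same properties. -/
theorem result :
    (∀ (V : Type) (C : Circuit V), ∃ D : RCircuit V, D.size = C.size ∧
      (∀ x o, D.val x o = if C.val x o then 1 else 0) ∧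
      ∀ x, D.notVals x = (C.notVals x).map fun v => if v then 1 else 0) ∧
    (∀ (V : Type) (C : RCircuit V) (U : Finset V) (J : Finset ℕ) (b : ℕ),
      (∀ i, i ∉ J → ∀ x y : V → Bool, (∀ v, v ∉ U → x v = y v) →
        (C.notVals x)[i]? = (C.notVals y)[i]?) →
      2 ^ J.card ≤ b → ChangesOn U (fun x => C.notVals x) b) ∧
    (∀ (s N : ℕ) (U : Finset (Edge N)), 1 ≤ s → U.Nonempty →
      ∃ μ : (Edge N → Bool) → ℝ, (∀ x, 0 ≤ μ x) ∧ ∑ x, μ x = 1 ∧
        (∀ x x', μ x ≠ 0 → μ x' ≠ 0 → ∀ v, v ∉ U → x v = x' v) ∧
        ∀ (b : ℕ) (C : RCircuit (Edge N)) (out : Wire (Edge N)) (ψ : ℝ →o Bool),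
          C.size < 2 ^ s → ChangesOn U (fun x => C.notVals x) b →
          ∑ x with (ψ (C.val x out) = true ↔ HasClique (N / 2) x), μ x
            ≤ 1 / 2 + (1 / 2) ^ s + b * ((2 ^ 131 * s ^ 4 * (Nat.log 2 s + 1) ^ 7) ^ 2 *
              (Nat.log 2 N + 1)) / U.card) ∧
    (∀ (V : Type) [Fintype V] (U : Finset V) (f : (V → Bool) → Bool) (d : ℕ), 1 ≤ d →
      (1 < d → ∀ x y : V → Bool, (∀ v, v ∉ U → x v = y v) → x ≤ y →
        f x = true → f y = true) →
      ∃ (D : RCircuit V) (o : Wire V),
        D.size ≤ (if d = 1 then 6 * Fintype.card V + 5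
          else (3 * Fintype.card V + 4) * (U.card + 1) ^ d) ∧
        (∀ x, D.val x o = if f x then 1 else 0) ∧
        ChangesOn U (fun x => D.notVals x) (U.card / d + 1) ∧
        D.negs ≤ (Fintype.card V - U.card) + (Nat.log 2 (U.card / d) + 1) ∧
        ∃ J : Finset ℕ, J.card ≤ Nat.log 2 (U.card / d) + 1 ∧
          ∀ i, i ∉ J → ∀ x y, (∀ v, v ∉ U → x v = y v) →
            (D.notVals x)[i]? = (D.notVals y)[i]?) ∧
    ∀ (V : Type) [Fintype V] (U : Finset V) (C : Circuit V) (out : Wire V) (d : ℕ), 1 ≤ d →
      (1 < d → ∀ x y : V → Bool, (∀ v, v ∉ U → x v = y v) → x ≤ y →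
        C.val x out = true → C.val y out = true) →
      ∃ (D : Circuit V) (o : Wire V),
        D.size ≤ 2 * (U.card + 1) ^ d * C.size + 20 * (U.card + 1) ^ (d + 2)
          + Fintype.card V ∧
        (∀ x, D.val x o = C.val x out) ∧
        ChangesOn U (fun x => D.notVals x) (U.card / d + 1) ∧
        D.negs ≤ (Fintype.card V - U.card) + (Nat.log 2 (U.card / d) + 1) ∧
        ∃ J : Finset ℕ, J.card ≤ Nat.log 2 (U.card / d) + 1 ∧
          ∀ i, i ∉ J → ∀ x y, (∀ v, v ∉ U → x v = y v) →
            (D.notVals x)[i]? = (D.notVals y)[i]? := by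
  refine ⟨fun V C => exists_real_circuit C, fun V C U J b h hJ => rchangesOn_free C U J h hJ,
    fun s N U hs hU => ?_, fun V _ U f d hd hmono => ?_,
    fun V _ U C out d hd hmono => Wn.exists_wide_nots C out U hd hmono⟩
  · obtain ⟨μ, h0, h1, h2, h3, -⟩ := rclique_average_all hs U hU
    have h5 : (2 ^ 131 * (s : ℝ) ^ 4 * (Nat.log 2 s + 1) ^ 7) ^ 2 = 4 * acz s := by
      unfold acz
      push_cast
      ring
    have key : ∀ b : ℕ, 2 * (b : ℝ) * (acz s * (Nat.log 2 N + 1)) / U.card
        ≤ b * ((2 ^ 131 * s ^ 4 * (Nat.log 2 s + 1) ^ 7) ^ 2 * (Nat.log 2 N + 1)) / U.card := by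
      intro b
      rw [h5]
      refine div_le_div_of_nonneg_right ?_ (Nat.cast_nonneg _)
      have h6 : (0 : ℝ) ≤ b * (acz s * (Nat.log 2 N + 1)) := by positivity
      nlinarith
    exact ⟨μ, h0, h1, h2, fun b C out ψ h5 h6 => (h3 b C out ψ h5 h6).trans
      (add_le_add le_rfl (key b))⟩
  · by_cases h1 : d = 1
    · subst h1
      obtain ⟨D, o, h2, h3, h4, h5, h6⟩ := exists_real f U
      rw [if_pos rfl, Nat.div_one]
      exact ⟨D, o, h2, h3, h4, h5, h6⟩
    · rw [if_neg h1]
      exact exists_real_wide f U hd hmono

end Pool.Agent.Results.MP_994c82_lc.TransferNatural
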